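import Pool.Agent.Lib.MP_75b31c_lc.N40.Iface

set_option autoImplicit false

/-!
# Module TUR (MP_75b31c_lc, Part B): search along initial segments
-/

namespace Pool.Agent.Lib.MP_75b31c_lc.N40.H21

open Filter
open Encodable
open Pool.Agent.Lib.MP_75b31c_lc.N40
open Pool.Agent.Lib.MP_75b31c_lc.H40 (chi pre search_rec_comp)
open Pool.Agent.Lib.MP_f26228_lc (seg)

theorem tur : TUR_S := by
  intro G hG z p n₀ h
  let Θ : List ℕ → ℕ → Option ℕ := fun ρ n =>
    ((pre p n₀)[n]? <|> G (ρ.map fun k => decide (k = 1)) n).map Bool.toNat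
  have hΘ : Computable₂ Θ := by
    have h1 : Primrec fun w : List ℕ × ℕ => w.1.map fun k => decide (k = 1) := by
      refine Primrec.list_map Primrec.fst ?_
      exact (Primrec.eq.comp Primrec.snd (Primrec.const 1)).decide
    have h2 : Computable fun w : List ℕ × ℕ => G (w.1.map fun k => decide (k = 1)) w.2 :=
      hG.comp h1.to_comp Computable.snd
    have h3 : Computable fun w : List ℕ × ℕ => (pre p n₀)[w.2]? :=
      Computable.list_getElem?.comp (Computable.const (pre p n₀)) Computable.snd
    have h4 : Computable fun w : List ℕ × ℕ =>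
        ((pre p n₀)[w.2]? <|> G (w.1.map fun k => decide (k = 1)) w.2) :=
      Primrec.option_orElse.to_comp.comp h3 h2
    exact (Primrec.dom_finite (fun o : Option Bool => o.map Bool.toNat)).to_comp.comp h4
  let Xo : ℕ → ℕ := fun i => (z i).toNat
  have hS := search_rec_comp Xo hΘ
  have hmap : ∀ t, (seg Xo t).map (fun k => decide (k = 1)) = pre z t := by
    intro t
    unfold seg pre
    rw [List.map_map]
    apply List.map_congr_left
    intro i _
    show decide ((z i).toNat = 1) = z i
    cases z i <;> simp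
  have hval : ∀ t n, Θ (seg Xo t) n = ((pre p n₀)[n]? <|> G (pre z t) n).map Bool.toNat := by
    intro t n
    show ((pre p n₀)[n]? <|> G ((seg Xo t).map fun k => decide (k = 1)) n).map Bool.toNat = _
    rw [hmap]
  have hpre : ∀ n, (pre p n₀)[n]? = if n < n₀ then some (p n) else none := by
    intro n
    unfold pre
    by_cases hn : n < n₀
    · rw [if_pos hn]
      simp [hn]
    · rw [if_neg hn]
      simp [hn]
  have hunique : ∀ t n w, Θ (seg Xo t) n = some w → w = (p n).toNat := by
    intro t n w hw
    rw [hval, hpre] at hw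
    by_cases hn : n < n₀
    · rw [if_pos hn] at hw
      simpa using hw.symm
    · rw [if_neg hn] at hw
      have h1 : (G (pre z t) n).map Bool.toNat = some w := by simpa using hw
      obtain ⟨c, hc, rfl⟩ := Option.map_eq_some_iff.1 h1
      rw [(h n (by omega)).1 t c hc]
  have hex : ∀ n, ∃ t w, Θ (seg Xo t) n = some w := by
    intro n
    by_cases hn : n < n₀
    · refine ⟨0, (p n).toNat, ?_⟩
      rw [hval, hpre, if_pos hn]
      simp
    · obtain ⟨t, ht⟩ := (h n (by omega)).2
      refine ⟨t, (p n).toNat, ?_⟩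
      rw [hval, hpre, if_neg hn, ht]
      simp
  have key : ∀ n, Nat.rfindOpt (fun t => Θ (seg Xo t) n) = chi p n := by
    intro n
    have hdom : (Nat.rfindOpt (fun t => Θ (seg Xo t) n)).Dom := by
      rw [Nat.rfindOpt_dom]
      obtain ⟨t, w, hw⟩ := hex n
      exact ⟨t, w, hw⟩
    obtain ⟨w, hw⟩ := Part.dom_iff_mem.1 hdom
    obtain ⟨t, ht⟩ := Nat.rfindOpt_spec hw
    have h1 := hunique t n w ht
    rw [h1] at hw
    exact Part.eq_some_iff.2 hw
  exact RecursiveIn.of_eq hS key

end Pool.Agent.Lib.MP_75b31c_lc.N40.H21
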